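import Pool.Agent.Helper50.KP.GoalsF

/-!
Packet KP-MVC (helper4): invariance of the number of colourings under the Reidemeister moves.
-/

set_option autoImplicit false

namespace Pool.Agent.Helper4.KP

open Pool.Agent.Helper50.KP

theorem str_le {e : Ev} {w : Word} {n k : ℕ} (h : str (e :: w) n = some k) :
    e.2 + e.1.i ≤ n := by
  by_contra hc
  rw [str, if_neg hc] at h
  cases h

section

theorem split2 {α : Type} {i : ℕ} {L : List α} (h : i + 2 ≤ L.length) :
    ∃ (A : List α) (a b : α) (R : List α), A.length = i ∧ L = A ++ a :: b :: R := by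
  refine ⟨L.take i, L[i], L[i + 1], L.drop (i + 2), ?_, ?_⟩
  · rw [List.length_take]
    omega
  · conv_lhs => rw [← List.take_append_drop i L]
    congr 1
    rw [List.drop_eq_getElem_cons (by omega), List.drop_eq_getElem_cons (i := i + 1) (by omega)]

theorem split3 {α : Type} {i : ℕ} {L : List α} (h : i + 3 ≤ L.length) :
    ∃ (A : List α) (a b c : α) (R : List α), A.length = i ∧ L = A ++ a :: b :: c :: R := by
  refine ⟨L.take i, L[i], L[i + 1], L[i + 2], L.drop (i + 3), ?_, ?_⟩
  · rw [List.length_take]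
    omega
  · conv_lhs => rw [← List.take_append_drop i L]
    congr 1
    rw [List.drop_eq_getElem_cons (by omega), List.drop_eq_getElem_cons (i := i + 1) (by omega),
      List.drop_eq_getElem_cons (i := i + 2) (by omega)]

variable {G : Type} [Group G]

theorem xr_t (g h : G) : xr true g h = [g * h * g⁻¹, g] := rfl

theorem xr_f (g h : G) : xr false g h = [h, h⁻¹ * g * h] := rfl

variable [Fintype G] [DecidableEq G]

theorem cnt_X (s : Bool) (i : ℕ) (w : Word) (A R : List G) (g h : G) (hA : A.length = i) :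
    cnt ((.X s, i) :: w) (A ++ g :: h :: R) = cnt w (A ++ (xr s g h ++ R)) := by
  subst hA
  rw [cnt]
  have h1 : ((A ++ g :: h :: R).drop A.length).take (Kind.X s).i = [g, h] := by
    rw [List.drop_left]
    rfl
  have h2 : (A ++ g :: h :: R).take A.length = A := List.take_left
  have h3 : (A ++ g :: h :: R).drop (A.length + (Kind.X s).i) = R := by
    rw [← List.drop_drop, List.drop_left]
    rfl
  show ∑ o ∈ loc (Kind.X s) (((A ++ g :: h :: R).drop A.length).take (Kind.X s).i),
    cnt w ((A ++ g :: h :: R).take A.length ++ o ++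
      (A ++ g :: h :: R).drop (A.length + (Kind.X s).i)) = _
  rw [h1, h2, h3]
  show ∑ o ∈ ({xr s g h} : Finset (List G)), cnt w (A ++ o ++ R) = _
  rw [Finset.sum_singleton, List.append_assoc]

theorem cnt_X1 (s : Bool) (i : ℕ) (w : Word) (A R : List G) (p g h : G) (hA : A.length = i) :
    cnt ((.X s, i + 1) :: w) (A ++ p :: g :: h :: R) = cnt w (A ++ p :: (xr s g h ++ R)) := by
  have h1 : A ++ p :: g :: h :: R = (A ++ [p]) ++ g :: h :: R := by
    rw [List.append_assoc]
    rfl
  have h2 : A ++ p :: (xr s g h ++ R) = (A ++ [p]) ++ (xr s g h ++ R) := by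
    rw [List.append_assoc]
    rfl
  rw [h1, h2]
  exact cnt_X s (i + 1) w (A ++ [p]) R g h (by rw [List.length_append, hA]; rfl)

theorem cnt_cap (i : ℕ) (w : Word) (A R : List G) (g h : G) (hA : A.length = i) :
    cnt ((.cap, i) :: w) (A ++ g :: h :: R) = if g * h = 1 then cnt w (A ++ R) else 0 := by
  subst hA
  rw [cnt]
  have h1 : ((A ++ g :: h :: R).drop A.length).take Kind.cap.i = [g, h] := by
    rw [List.drop_left]
    rfl
  have h2 : (A ++ g :: h :: R).take A.length = A := List.take_left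
  have h3 : (A ++ g :: h :: R).drop (A.length + Kind.cap.i) = R := by
    rw [← List.drop_drop, List.drop_left]
    rfl
  show ∑ o ∈ loc Kind.cap (((A ++ g :: h :: R).drop A.length).take Kind.cap.i),
    cnt w ((A ++ g :: h :: R).take A.length ++ o ++
      (A ++ g :: h :: R).drop (A.length + Kind.cap.i)) = _
  rw [h1, h2, h3]
  show ∑ o ∈ (if g * h = 1 then ({[]} : Finset (List G)) else ∅), cnt w (A ++ o ++ R) = _
  split_ifs with hc
  · rw [Finset.sum_singleton, List.append_nil]
  · rw [Finset.sum_empty]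

theorem cnt_cup (i : ℕ) (w : Word) (A R : List G) (hA : A.length = i) :
    cnt ((.cup, i) :: w) (A ++ R) = ∑ g : G, cnt w (A ++ g :: g⁻¹ :: R) := by
  subst hA
  rw [cnt]
  have h2 : (A ++ R).take A.length = A := List.take_left
  have h3 : (A ++ R).drop (A.length + Kind.cup.i) = R := List.drop_left
  show ∑ o ∈ Finset.univ.image (fun g : G => [g, g⁻¹]),
    cnt w ((A ++ R).take A.length ++ o ++ (A ++ R).drop (A.length + Kind.cup.i)) = _
  rw [h2, h3, Finset.sum_image]
  · refine Finset.sum_congr rfl fun g _ => ?_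
    rw [List.append_assoc]
    rfl
  · intro g _ g' _ hg
    exact (List.cons_eq_cons.1 hg).1

theorem gMVC : Pool.Agent.Helper50.KP.MVC := by
  intro G _ _ _ l r v L k k' hR hl hr
  cases hR with
  | r1cup i s =>
    have hi : i ≤ L.length := str_le hr
    have hL : L = L.take i ++ L.drop i := (List.take_append_drop i L).symm
    have hA : (L.take i).length = i := by
      rw [List.length_take]
      omega
    rw [hL]
    show cnt ((.cup, i) :: (.X s, i) :: v) (L.take i ++ L.drop i) =
      cnt ((.cup, i) :: v) (L.take i ++ L.drop i)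
    rw [cnt_cup i _ _ _ hA, cnt_cup i _ _ _ hA]
    rw [← Equiv.sum_comp (Equiv.inv G) (fun g => cnt v (L.take i ++ g :: g⁻¹ :: L.drop i))]
    refine Finset.sum_congr rfl fun g _ => ?_
    rw [cnt_X s i v _ _ _ _ hA, Equiv.inv_apply, inv_inv]
    cases s with
    | true =>
      rw [xr_t, mul_inv_cancel, one_mul]
      rfl
    | false =>
      rw [xr_f, inv_inv, mul_inv_cancel_right]
      rfl
  | r1cap i s =>
    have hi : i + 2 ≤ L.length := str_le hr
    obtain ⟨A, g, h, R, hA, rfl⟩ := split2 hi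
    show cnt ((.X s, i) :: (.cap, i) :: v) (A ++ g :: h :: R) =
      cnt ((.cap, i) :: v) (A ++ g :: h :: R)
    rw [cnt_X s i _ _ _ _ _ hA, cnt_cap i _ _ _ _ _ hA]
    cases s with
    | true =>
      rw [xr_t]
      show cnt ((.cap, i) :: v) (A ++ (g * h * g⁻¹) :: g :: R) = _
      rw [cnt_cap i _ _ _ _ _ hA, inv_mul_cancel_right]
    | false =>
      rw [xr_f]
      show cnt ((.cap, i) :: v) (A ++ h :: (h⁻¹ * g * h) :: R) = _
      rw [cnt_cap i _ _ _ _ _ hA]
      have : h * (h⁻¹ * g * h) = g * h := by group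
      rw [this]
  | r2 i s =>
    have hi : i + 2 ≤ L.length := str_le hl
    obtain ⟨A, g, h, R, hA, rfl⟩ := split2 hi
    show cnt ((.X s, i) :: (.X (!s), i) :: v) (A ++ g :: h :: R) = cnt v (A ++ g :: h :: R)
    rw [cnt_X s i _ _ _ _ _ hA]
    cases s with
    | true =>
      rw [xr_t]
      show cnt ((.X false, i) :: v) (A ++ (g * h * g⁻¹) :: g :: R) = _
      rw [cnt_X false i _ _ _ _ _ hA, xr_f]
      have : g⁻¹ * (g * h * g⁻¹) * g = h := by group
      rw [this]
      rfl
    | false =>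
      rw [xr_f]
      show cnt ((.X true, i) :: v) (A ++ h :: (h⁻¹ * g * h) :: R) = _
      rw [cnt_X true i _ _ _ _ _ hA, xr_t]
      have : h * (h⁻¹ * g * h) * h⁻¹ = g := by group
      rw [this]
      rfl
  | r3 i s t u hstu =>
    have hi : i + 3 ≤ L.length := str_le hr
    obtain ⟨A, g, h, m, R, hA, rfl⟩ := split3 hi
    show cnt ((.X s, i) :: (.X t, i + 1) :: (.X u, i) :: v) (A ++ g :: h :: m :: R) =
      cnt ((.X u, i + 1) :: (.X t, i) :: (.X s, i + 1) :: v) (A ++ g :: h :: m :: R)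
    rw [cnt_X s i _ _ _ _ _ hA, cnt_X1 u i _ _ _ _ _ _ hA]
    have key : ∀ (w : Word) (a b c a' b' c' : G), a = a' → b = b' → c = c' →
        cnt w (A ++ a :: b :: c :: R) = cnt w (A ++ a' :: b' :: c' :: R) := by
      intro w a b c a' b' c' h1 h2 h3
      rw [h1, h2, h3]
    have e1 : ∀ (a b c : G), [a, b] ++ c :: R = a :: b :: c :: R := fun _ _ _ => rfl
    have e2 : ∀ (a b : G), [a, b] ++ R = a :: b :: R := fun _ _ => rfl
    cases s <;> cases t <;> cases u
    · simp only [xr_f, e1, e2]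
      rw [cnt_X1 _ i _ _ _ _ _ _ hA, cnt_X _ i _ _ _ _ _ hA]
      simp only [xr_f, e1, e2]
      rw [cnt_X _ i _ _ _ _ _ hA, cnt_X1 _ i _ _ _ _ _ _ hA]
      simp only [xr_f, e1, e2]
      apply key <;> group
    · simp only [xr_f, xr_t, e1, e2]
      rw [cnt_X1 _ i _ _ _ _ _ _ hA, cnt_X _ i _ _ _ _ _ hA]
      simp only [xr_f, xr_t, e1, e2]
      rw [cnt_X _ i _ _ _ _ _ hA, cnt_X1 _ i _ _ _ _ _ _ hA]
      simp only [xr_f, xr_t, e1, e2]
      apply key <;> group
    · exact absurd (hstu rfl) (by decide)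
    · simp only [xr_f, xr_t, e1, e2]
      rw [cnt_X1 _ i _ _ _ _ _ _ hA, cnt_X _ i _ _ _ _ _ hA]
      simp only [xr_f, xr_t, e1, e2]
      rw [cnt_X _ i _ _ _ _ _ hA, cnt_X1 _ i _ _ _ _ _ _ hA]
      simp only [xr_f, xr_t, e1, e2]
      apply key <;> group
    · simp only [xr_f, xr_t, e1, e2]
      rw [cnt_X1 _ i _ _ _ _ _ _ hA, cnt_X _ i _ _ _ _ _ hA]
      simp only [xr_f, xr_t, e1, e2]
      rw [cnt_X _ i _ _ _ _ _ hA, cnt_X1 _ i _ _ _ _ _ _ hA]
      simp only [xr_f, xr_t, e1, e2]
      apply key <;> group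
    · exact absurd (hstu rfl) (by decide)
    · simp only [xr_f, xr_t, e1, e2]
      rw [cnt_X1 _ i _ _ _ _ _ _ hA, cnt_X _ i _ _ _ _ _ hA]
      simp only [xr_f, xr_t, e1, e2]
      rw [cnt_X _ i _ _ _ _ _ hA, cnt_X1 _ i _ _ _ _ _ _ hA]
      simp only [xr_f, xr_t, e1, e2]
      apply key <;> group
    · simp only [xr_t, e1, e2]
      rw [cnt_X1 _ i _ _ _ _ _ _ hA, cnt_X _ i _ _ _ _ _ hA]
      simp only [xr_t, e1, e2]
      rw [cnt_X _ i _ _ _ _ _ hA, cnt_X1 _ i _ _ _ _ _ _ hA]
      simp only [xr_t, e1, e2]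
      apply key <;> group

end

end Pool.Agent.Helper4.KP
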